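import Pool.Agent.Y938.AQ.Stm

set_option autoImplicit false

/-! Project AQ (frozen S00938): assembly. -/

namespace Pool.Agent.Y938.AQ

theorem asm_spec (h1 : S_na) (h2 : S_pol) (h3 : S_notOB) (h4 : S_fin) :
    ¬ (∀ (G : Type) [Group G] [TopologicalSpace G] [NonarchimedeanGroup G] [PolishSpace G],
      (∀ (X : Type) [MetricSpace X] (ρ : G →* (X ≃ᵢ X)),
          (∀ x : X, Continuous (fun g : G => ρ g x)) →
          ∀ x : X, Bornology.IsBounded (Set.range (fun g : G => ρ g x)))
      ↔
      (∀ (E : Type) [NormedAddCommGroup E] [NormedSpace ℝ E] [CompleteSpace E],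
          Function.Surjective (NormedSpace.inclusionInDoubleDual ℝ E) →
          ∀ ρ : G →* (E ≃ᵃⁱ[ℝ] E),
            (∀ v : E, Continuous (fun g : G => ρ g v)) →
            ∃ v : E, ∀ g : G, ρ g v = v)) := by
  intro H
  haveI : NonarchimedeanGroup G := h1
  haveI : PolishSpace G := h2
  exact h3 ((H G).mpr h4)

end Pool.Agent.Y938.AQ
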