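import Pool.Agent.Y938.AQ.Stm

set_option autoImplicit false

/-! Project AQ: the orbits of the stabiliser of `0` are bounded. -/

namespace Pool.Agent.Y938.AQ

open Filter Topology

namespace Bdd

theorem act_add_nat (g : G) (x : ℚ) (n : ℕ) : act g (x + n) = act g x + n := by
  induction n with
  | zero => simp
  | succ n ih =>
    have h : x + ((n + 1 : ℕ) : ℚ) = (x + n) + 1 := by push_cast; ring
    rw [h, act_add_one, ih]
    push_cast
    ring

theorem act_add_int (g : G) (x : ℚ) (n : ℤ) : act g (x + n) = act g x + n := by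
  obtain ⟨m, rfl | rfl⟩ := n.eq_nat_or_neg
  · exact_mod_cast act_add_nat g x m
  · have h := act_add_nat g (x + ((-(m : ℤ) : ℤ) : ℚ)) m
    have h' : x + ((-(m : ℤ) : ℤ) : ℚ) + (m : ℚ) = x := by push_cast; ring
    rw [h'] at h
    rw [h]
    push_cast
    ring

/-- fixing the fractional part -/
theorem fix_of_fract {g : G} {x : ℚ} (h : act g (Int.fract x) = Int.fract x) : act g x = x := by
  have h1 : Int.fract x + ((⌊x⌋ : ℤ) : ℚ) = x := Int.fract_add_floor x
  calc act g x = act g (Int.fract x + ((⌊x⌋ : ℤ) : ℚ)) := by rw [h1]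
    _ = act g (Int.fract x) + ((⌊x⌋ : ℤ) : ℚ) := act_add_int _ _ _
    _ = x := by rw [h, h1]

theorem act_one' {g : G} (h : act g 0 = 0) : act g 1 = 1 := by
  have h1 := act_add_one g 0
  rw [h, zero_add] at h1
  exact h1

theorem act_inv_fix {g : G} {x : ℚ} (h : act g x = x) : act g⁻¹ x = x := by
  have h1 := act_inv_act g x
  rw [h] at h1
  exact h1

/-- a finite set of `[0,1)` containing `0` with small displacement of its stabiliser -/
theorem exists_F (h1 : S_nhd) {E : Type} [NormedAddCommGroup E] [NormedSpace ℝ E]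
    (ρ : G →* (E ≃ᵃⁱ[ℝ] E)) (hρ : ∀ v : E, Continuous (fun g : G => ρ g v)) (v : E) {ε : ℝ}
    (hε : 0 < ε) :
    ∃ F : Finset ℚ, 0 ∈ F ∧ (∀ x ∈ F, 0 ≤ x ∧ x < 1) ∧
      ∀ g : G, (∀ x ∈ F, act g x = x) → dist (ρ g v) v < ε := by
  have hU : {g : G | dist (ρ g v) v < ε} ∈ 𝓝 (1 : G) := by
    have h2 : ContinuousAt (fun g : G => ρ g v) 1 := (hρ v).continuousAt
    have h3 := Metric.continuousAt_iff'.1 h2 ε hε
    have h4 : ρ 1 v = v := by rw [map_one]; rfl
    rw [h4] at h3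
    exact h3
  obtain ⟨F, hF⟩ := h1 _ hU
  refine ⟨insert 0 (F.image Int.fract), Finset.mem_insert_self _ _, ?_, ?_⟩
  · intro x hx
    rcases Finset.mem_insert.1 hx with rfl | hx
    · exact ⟨le_rfl, by norm_num⟩
    · obtain ⟨y, _, rfl⟩ := Finset.mem_image.1 hx
      exact ⟨Int.fract_nonneg y, Int.fract_lt_one y⟩
  · intro g hg
    apply hF g
    intro x hx
    apply fix_of_fract
    exact hg _ (Finset.mem_insert_of_mem (Finset.mem_image_of_mem _ hx))

theorem dist_mul {E : Type} [NormedAddCommGroup E] [NormedSpace ℝ E]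
    (ρ : G →* (E ≃ᵃⁱ[ℝ] E)) (v : E) (g h : G) :
    dist (ρ (g * h) v) v ≤ dist (ρ g v) v + dist (ρ h v) v := by
  have h1 : ρ (g * h) v = ρ g (ρ h v) := by rw [map_mul]; rfl
  rw [h1]
  calc dist (ρ g (ρ h v)) v ≤ dist (ρ g (ρ h v)) (ρ g v) + dist (ρ g v) v := dist_triangle _ _ _
    _ = dist (ρ h v) v + dist (ρ g v) v := by rw [(ρ g).dist_map]
    _ = _ := add_comm _ _

theorem dist_inv {E : Type} [NormedAddCommGroup E] [NormedSpace ℝ E]
    (ρ : G →* (E ≃ᵃⁱ[ℝ] E)) (v : E) (g : G) :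
    dist (ρ g⁻¹ v) v = dist (ρ g v) v := by
  have h1 : ρ g (ρ g⁻¹ v) = v := by
    have h2 : ρ (g * g⁻¹) v = ρ g (ρ g⁻¹ v) := by rw [map_mul]; rfl
    rw [← h2, mul_inv_cancel, map_one]
    rfl
  calc dist (ρ g⁻¹ v) v = dist (ρ g (ρ g⁻¹ v)) (ρ g v) := ((ρ g).dist_map _ _).symm
    _ = dist v (ρ g v) := by rw [h1]
    _ = _ := dist_comm _ _

/-- the factorization: `g = w⁻¹ u⁻¹ (u w g)` -/
theorem factor (h2 : S_bump) (h3 : S_hom) (F : Finset ℚ)
    (hF : ∀ x ∈ F, 0 ≤ x ∧ x < 1) :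
    ∃ k : G, ∀ g : G, act g 0 = 0 → ∃ w u : G, (∀ x ∈ F, act w x = x) ∧
      (∀ x ∈ F, act (k⁻¹ * u * k) x = x) ∧ ∀ x ∈ F, act (u * w * g) x = x := by
  classical
  by_cases hne : (F.erase 0).Nonempty
  · obtain ⟨f1, hf1⟩ : ∃ f1, f1 = (F.erase 0).min' hne := ⟨_, rfl⟩
    obtain ⟨fr, hfr⟩ : ∃ fr, fr = (F.erase 0).max' hne := ⟨_, rfl⟩
    have hf1m : f1 ∈ F.erase 0 := hf1 ▸ Finset.min'_mem _ _
    have hfrm : fr ∈ F.erase 0 := hfr ▸ Finset.max'_mem _ _
    have hlow : ∀ x ∈ F.erase 0, f1 ≤ x := fun x hx => hf1 ▸ Finset.min'_le _ x hx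
    have hupp : ∀ x ∈ F.erase 0, x ≤ fr := fun x hx => hfr ▸ Finset.le_max' _ x hx
    have hpos : ∀ x ∈ F.erase 0, 0 < x ∧ x < 1 := by
      intro x hx
      obtain ⟨e1, e2⟩ := hF x (Finset.mem_of_mem_erase hx)
      exact ⟨lt_of_le_of_ne e1 (Finset.ne_of_mem_erase hx).symm, e2⟩
    have hf1p := hpos f1 hf1m
    have hfrp := hpos fr hfrm
    obtain ⟨k, hk1, hk2⟩ := h2 0 1 fr (f1 / 2) le_rfl hfrp.1 hfrp.2 (by linarith) (by linarith)
      le_rfl
    have hk0 : act k 0 = 0 := hk2 0 le_rfl one_pos (Or.inl le_rfl)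
    refine ⟨k, fun g hg => ?_⟩
    have hg1 := act_one' hg
    -- the element `w`
    obtain ⟨w, hw1, hw2, hw3⟩ : ∃ w : G, (∀ x ∈ F, act w x = x) ∧ act w 0 = 0 ∧
        ∀ x ∈ F.erase 0, f1 / 2 < act w (act g x) := by
      rcases lt_or_ge (f1 / 2) (act g f1) with h | h
      · refine ⟨1, fun x _ => rfl, rfl, fun x hx => ?_⟩
        rw [act_one]
        exact lt_of_lt_of_le h ((act_le g).2 (hlow x hx))
      · have hτ : 0 < act g f1 := by
          rw [← hg]
          exact (act_lt g).2 hf1p.1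
        obtain ⟨w, hw1, hw2⟩ := h2 0 f1 (act g f1) (3 * f1 / 4) le_rfl hτ (by linarith)
          (by linarith) (by linarith) hf1p.2.le
        refine ⟨w, ?_, hw2 0 le_rfl one_pos (Or.inl le_rfl), ?_⟩
        · intro x hx
          by_cases hx0 : x = 0
          · rw [hx0]
            exact hw2 0 le_rfl one_pos (Or.inl le_rfl)
          · exact hw2 x (hF x hx).1 (hF x hx).2 (Or.inr (hlow x (Finset.mem_erase.2 ⟨hx0, hx⟩)))
        · intro x hx
          have h4 : act w (act g f1) ≤ act w (act g x) := (act_le w).2 ((act_le g).2 (hlow x hx))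
          rw [hw1] at h4
          linarith
    have hw4 := act_one' hw2
    -- the element `u`
    obtain ⟨e, he⟩ : ∃ e : Fin (F.erase 0).card ↪o ℚ, e = (F.erase 0).orderEmbOfFin rfl :=
      ⟨_, rfl⟩
    have hem : ∀ i, e i ∈ F.erase 0 := fun i => by
      rw [he]
      exact Finset.orderEmbOfFin_mem _ _ _
    obtain ⟨u, hu1, hu2⟩ := h3 (f1 / 2) (by linarith) (by linarith) (F.erase 0).card
      (fun i => act w (act g (e i))) (fun i => e i)
      (fun i j hij => (act_lt w).2 ((act_lt g).2 (e.strictMono hij)))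
      (fun i j hij => e.strictMono hij)
      (fun i => ⟨hw3 _ (hem i), by
        have h4 : act w (act g (e i)) < act w (act g 1) :=
          (act_lt w).2 ((act_lt g).2 (hpos _ (hem i)).2)
        rw [hg1, hw4] at h4
        exact h4⟩)
      (fun i => ⟨by
        have := hlow _ (hem i)
        linarith, (hpos _ (hem i)).2⟩)
    refine ⟨w, u, hw1, ?_, ?_⟩
    · intro x hx
      rw [act_mul, act_mul]
      have h4 : 0 ≤ act k x := by
        rw [← hk0]
        exact (act_le k).2 (hF x hx).1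
      have h5 : act k x ≤ f1 / 2 := by
        rw [← hk1]
        apply (act_le k).2
        by_cases hx0 : x = 0
        · rw [hx0]
          exact hfrp.1.le
        · exact hupp x (Finset.mem_erase.2 ⟨hx0, hx⟩)
      rw [hu1 _ h4 h5, act_inv_act]
    · intro x hx
      rw [act_mul, act_mul]
      by_cases hx0 : x = 0
      · rw [hx0, hg, hw2]
        exact hu1 0 le_rfl (by linarith)
      · obtain ⟨i, hi⟩ : ∃ i, e i = x := by
          have h4 : x ∈ Set.range e := by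
            rw [he, Finset.range_orderEmbOfFin]
            exact Finset.mem_erase.2 ⟨hx0, hx⟩
          exact h4
        rw [← hi]
        exact hu2 i
  · refine ⟨1, fun g hg => ⟨1, 1, fun x _ => rfl, fun x _ => rfl, ?_⟩⟩
    intro x hx
    have hx0 : x = 0 := by
      by_contra hx0
      exact hne ⟨x, Finset.mem_erase.2 ⟨hx0, hx⟩⟩
    rw [one_mul, one_mul, hx0, hg]

end Bdd

theorem bdd_spec (h1 : S_nhd) (h2 : S_bump) (h3 : S_hom) : S_bdd := by
  intro E _ _ ρ hρ v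
  obtain ⟨F, _, hF, hs⟩ := Bdd.exists_F h1 ρ hρ v one_pos
  obtain ⟨k, hk⟩ := Bdd.factor h2 h3 F hF
  refine ⟨3 + 2 * dist (ρ k v) v, fun g hg => ?_⟩
  obtain ⟨w, u, e1, e2, e3⟩ := hk g hg
  rw [← dist_eq_norm]
  have hfac : g = w⁻¹ * (k * ((k⁻¹ * u * k)⁻¹ * (k⁻¹ * (u * w * g)))) := by group
  have d1 := hs w e1
  have d2 := hs _ e2
  have d3 := hs _ e3
  have b1 := Bdd.dist_mul ρ v w⁻¹ (k * ((k⁻¹ * u * k)⁻¹ * (k⁻¹ * (u * w * g))))
  have b2 := Bdd.dist_mul ρ v k ((k⁻¹ * u * k)⁻¹ * (k⁻¹ * (u * w * g)))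
  have b3 := Bdd.dist_mul ρ v (k⁻¹ * u * k)⁻¹ (k⁻¹ * (u * w * g))
  have b4 := Bdd.dist_mul ρ v k⁻¹ (u * w * g)
  rw [← hfac, Bdd.dist_inv] at b1
  rw [Bdd.dist_inv] at b3 b4
  linarith

end Pool.Agent.Y938.AQ
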