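import Pool.Agent.Y938.AQ.Stm

set_option autoImplicit false

/-! Project AQ: bumps (helper348). -/

namespace Pool.Agent.Y938.AQ

namespace Bump

/-- Piecewise linear map with break points `c`, `a`, `d`. -/
def pw (c d a b k l : ℚ) (t : ℚ) : ℚ :=
  if t ≤ c then t else if t ≤ a then c + k * (t - c) else if t ≤ d then b + l * (t - a) else t

theorem pw_mono {c d a b k l : ℚ} (hca : c < a) (had : a < d) (hcb : c < b) (hbd : b < d)
    (hk : 0 < k) (hl : 0 < l) (hk' : k * (a - c) = b - c) (hl' : l * (d - a) = d - b) :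
    StrictMono (pw c d a b k l) := by
  intro s t hst
  unfold pw
  split_ifs <;> nlinarith

theorem pw_inv {c d a b k l k' l' : ℚ} (hca : c < a) (had : a < d) (hcb : c < b) (hbd : b < d)
    (hk : 0 < k) (hl : 0 < l) (hk' : k * (a - c) = b - c) (hl' : l * (d - a) = d - b)
    (hkk : k' * k = 1) (hll : l' * l = 1) (t : ℚ) :
    pw c d b a k' l' (pw c d a b k l t) = t := by
  unfold pw
  by_cases h1 : t ≤ c
  · simp [h1]
  by_cases h2 : t ≤ a
  · have h3 : ¬ (c + k * (t - c) ≤ c) := by
      have := mul_pos hk (sub_pos.mpr (not_le.mp h1))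
      linarith
    have h4 : c + k * (t - c) ≤ b := by nlinarith
    simp only [h1, h2, if_false, if_true, h3, h4]
    linear_combination (t - c) * hkk
  by_cases h3 : t ≤ d
  · have h4 : ¬ (b + l * (t - a) ≤ c) := by
      have := mul_pos hl (sub_pos.mpr (not_le.mp h2))
      linarith
    have h5 : ¬ (b + l * (t - a) ≤ b) := by
      have := mul_pos hl (sub_pos.mpr (not_le.mp h2))
      linarith
    have h6 : b + l * (t - a) ≤ d := by nlinarith
    simp only [h1, h2, h3, if_false, if_true, h4, h5, h6]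
    linear_combination (t - a) * hll
  · have h4 : ¬ (t ≤ b) := by linarith
    simp [h1, h2, h3, h4]

/-- Periodic extension. -/
def per (p : ℚ → ℚ) (x : ℚ) : ℚ := (⌊x⌋ : ℚ) + p (Int.fract x)

theorem per_fract {p : ℚ → ℚ} (hp : ∀ t, 0 ≤ t → t < 1 → 0 ≤ p t ∧ p t < 1) (x : ℚ) :
    ⌊per p x⌋ = ⌊x⌋ ∧ Int.fract (per p x) = p (Int.fract x) := by
  obtain ⟨h1, h2⟩ := hp _ (Int.fract_nonneg x) (Int.fract_lt_one x)
  have h3 : ⌊per p x⌋ = ⌊x⌋ := by
    rw [Int.floor_eq_iff]
    unfold per
    constructor <;> linarith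
  refine ⟨h3, ?_⟩
  rw [Int.fract, h3]
  unfold per
  ring

theorem per_inv {p q : ℚ → ℚ} (hp : ∀ t, 0 ≤ t → t < 1 → 0 ≤ p t ∧ p t < 1)
    (hqp : ∀ t, q (p t) = t) (x : ℚ) : per q (per p x) = x := by
  obtain ⟨h1, h2⟩ := per_fract hp x
  conv_lhs => unfold per
  rw [show ((⌊x⌋ : ℚ) + p (Int.fract x)) = per p x from rfl, h1, h2, hqp, Int.floor_add_fract]

theorem per_mono {p : ℚ → ℚ} (hp : ∀ t, 0 ≤ t → t < 1 → 0 ≤ p t ∧ p t < 1) (hm : StrictMono p) :
    StrictMono (per p) := by
  intro x y hxy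
  obtain ⟨h1, h2⟩ := hp _ (Int.fract_nonneg x) (Int.fract_lt_one x)
  obtain ⟨h3, h4⟩ := hp _ (Int.fract_nonneg y) (Int.fract_lt_one y)
  rcases (Int.floor_mono hxy.le).lt_or_eq with h | h
  · have h5 : (⌊x⌋ : ℚ) + 1 ≤ ⌊y⌋ := by exact_mod_cast h
    unfold per
    linarith
  · have h5 : Int.fract x < Int.fract y := by
      rw [Int.fract, Int.fract, h]
      linarith
    have h6 := hm h5
    unfold per
    rw [h]
    linarith

theorem per_add_one (p : ℚ → ℚ) (x : ℚ) : per p (x + 1) = per p x + 1 := by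
  unfold per
  rw [Int.floor_add_one, Int.fract_add_one]
  push_cast
  ring

end Bump

open Bump

theorem bump_spec : S_bump := by
  intro c d a b hc hca had hcb hbd hd
  have e1 : 0 < a - c := sub_pos.mpr hca
  have e2 : 0 < b - c := sub_pos.mpr hcb
  have e3 : 0 < d - a := sub_pos.mpr had
  have e4 : 0 < d - b := sub_pos.mpr hbd
  have hk : 0 < (b - c) / (a - c) := div_pos e2 e1
  have hl : 0 < (d - b) / (d - a) := div_pos e4 e3
  have hk2 : 0 < (a - c) / (b - c) := div_pos e1 e2
  have hl2 : 0 < (d - a) / (d - b) := div_pos e3 e4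
  have k1 : (b - c) / (a - c) * (a - c) = b - c := div_mul_cancel₀ _ e1.ne'
  have k2 : (a - c) / (b - c) * (b - c) = a - c := div_mul_cancel₀ _ e2.ne'
  have l1 : (d - b) / (d - a) * (d - a) = d - b := div_mul_cancel₀ _ e3.ne'
  have l2 : (d - a) / (d - b) * (d - b) = d - a := div_mul_cancel₀ _ e4.ne'
  have kk : (a - c) / (b - c) * ((b - c) / (a - c)) = 1 := by field_simp
  have ll : (d - a) / (d - b) * ((d - b) / (d - a)) = 1 := by field_simp
  have m1 := pw_mono hca had hcb hbd hk hl k1 l1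
  have m2 := pw_mono hcb hbd hca had hk2 hl2 k2 l2
  have hr : ∀ (x y k l : ℚ), x < d → StrictMono (pw c d x y k l) → l * (d - x) = d - y →
      ∀ t, 0 ≤ t → t < 1 → 0 ≤ pw c d x y k l t ∧ pw c d x y k l t < 1 := by
    intro x y k l hx hm hl t ht0 ht1
    have z0 : pw c d x y k l 0 = 0 := by simp [pw, hc]
    have z1 : pw c d x y k l 1 = 1 := by
      by_cases hd1 : d = 1
      · unfold pw
        rw [if_neg (by linarith), if_neg (by linarith), if_pos (by linarith)]
        rw [hd1] at hl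
        linarith
      · have : d < 1 := lt_of_le_of_ne hd hd1
        unfold pw
        rw [if_neg (by linarith), if_neg (by linarith), if_neg (by linarith)]
    constructor
    · rw [← z0]
      exact hm.monotone ht0
    · rw [← z1]
      exact hm ht1
  have r1 := hr a b _ _ had m1 l1
  have r2 := hr b a _ _ hbd m2 l2
  refine ⟨mkG (per (pw c d a b ((b - c) / (a - c)) ((d - b) / (d - a))))
    (per (pw c d b a ((a - c) / (b - c)) ((d - a) / (d - b))))
    (per_inv r2 (pw_inv hcb hbd hca had hk2 hl2 k2 l2 (by rw [mul_comm]; exact kk)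
      (by rw [mul_comm]; exact ll)))
    (per_inv r1 (pw_inv hca had hcb hbd hk hl k1 l1 kk ll))
    (per_mono r1 m1) (per_add_one _), ?_, ?_⟩
  · rw [act_mkG]
    have f0 : ⌊a⌋ = 0 := by
      rw [Int.floor_eq_zero_iff]
      exact ⟨by linarith, by linarith⟩
    have f1 : Int.fract a = a := by
      rw [Int.fract, f0]; simp
    unfold per
    rw [f0, f1]
    unfold pw
    rw [if_neg (by linarith), if_pos le_rfl, k1]
    push_cast
    ring
  · intro t ht0 ht1 ht
    rw [act_mkG]
    have f0 : ⌊t⌋ = 0 := by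
      rw [Int.floor_eq_zero_iff]
      exact ⟨by linarith, by linarith⟩
    have f1 : Int.fract t = t := by
      rw [Int.fract, f0]; simp
    unfold per
    rw [f0, f1]
    unfold pw
    rcases ht with ht | ht
    · rw [if_pos ht]
      simp
    · rw [if_neg (by linarith), if_neg (by linarith)]
      rcases ht.lt_or_eq with h | h
      · rw [if_neg (by linarith)]
        simp
      · rw [if_pos h.ge, ← h, l1]
        push_cast
        ring

end Pool.Agent.Y938.AQ
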