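import Pool.Agent.Y938.AQ.Stm

/-! Project AQ, step AQ10: the fixed vector of the group (helper518). -/

set_option autoImplicit false

namespace Pool.Agent.Y938.AQ

open Filter Topology

namespace Fin518

/-- the points `1 / (n + 2)` -/
def xs (n : ℕ) : ℚ := 1 / ((n : ℚ) + 2)

lemma xs_pos (n : ℕ) : 0 < xs n := by unfold xs; positivity

lemma xs_lt_one (n : ℕ) : xs n < 1 := by
  unfold xs
  rw [div_lt_one (by positivity)]
  have : (0 : ℚ) ≤ n := by positivity
  linarith

lemma xs_anti {m n : ℕ} (h : m < n) : xs n < xs m := by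
  unfold xs
  apply one_div_lt_one_div_of_lt (by positivity)
  have : (m : ℚ) < n := by exact_mod_cast h
  linarith

lemma xs_small (δ : ℚ) (hδ : 0 < δ) : ∀ᶠ n : ℕ in atTop, xs n < δ := by
  obtain ⟨N, hN⟩ := exists_nat_gt (1 / δ)
  filter_upwards [eventually_ge_atTop N] with n hn
  unfold xs
  rw [div_lt_iff₀ (by positivity)]
  have h1 : (N : ℚ) ≤ n := by exact_mod_cast hn
  have h2 : 1 / δ < (n : ℚ) + 2 := by linarith
  rw [div_lt_iff₀ hδ] at h2
  linarith

lemma ev_hyper {p : ℕ → Prop} (h : ∀ᶠ n : ℕ in atTop, p n) :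
    ∀ᶠ n : ℕ in (↑(Filter.hyperfilter ℕ) : Filter ℕ), p n := by
  rw [← Nat.cofinite_eq_atTop] at h
  exact Filter.hyperfilter_le_cofinite h

section
variable {E : Type} [NormedAddCommGroup E] [NormedSpace ℝ E] (ρ : G →* (E ≃ᵃⁱ[ℝ] E))

lemma rho_mul (g h : G) (v : E) : ρ (g * h) v = ρ g (ρ h v) := by
  rw [map_mul]; rfl

lemma rho_one (v : E) : ρ 1 v = v := by
  rw [map_one]; rfl

lemma rho_dist (g : G) (v v' : E) : ‖ρ g v - ρ g v'‖ = ‖v - v'‖ := by
  rw [← dist_eq_norm, ← dist_eq_norm, (ρ g).dist_map]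

lemma tr_inv_self (c : ℚ) : act (tr c)⁻¹ c = 0 := by
  have h := act_inv_act (tr c) 0
  rw [act_tr, zero_add] at h
  exact h

/-- the orbit of a vector fixed by the stabiliser of `0` -/
lemma rho_b (w : E) (hw : ∀ g : G, act g 0 = 0 → ρ g w = w) (g : G) (x : ℚ) :
    ρ g (ρ (tr x) w) = ρ (tr (act g x)) w := by
  have h1 : act ((tr (act g x))⁻¹ * (g * tr x)) 0 = 0 := by
    rw [act_mul, act_mul, act_tr, zero_add]
    exact tr_inv_self _
  have h3 := hw _ h1
  rw [← rho_mul]
  have h4 : g * tr x = tr (act g x) * ((tr (act g x))⁻¹ * (g * tr x)) := by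
    rw [mul_inv_cancel_left]
  rw [h4, rho_mul, h3]

end

lemma tr_add (a b : ℚ) : tr (a + b) = tr a * tr b := by
  apply G_ext
  intro x
  rw [act_mul, act_tr, act_tr, act_tr]
  ring

lemma tr_zero : tr 0 = 1 := by
  apply G_ext
  intro x
  rw [act_tr, act_one, add_zero]

end Fin518

open Fin518

theorem fin_spec (h3 : S_hom) (h4 : S_dense) (h5 : S_fixV) (h6 : S_wlim) (h7 : S_wuniq)
    (h8 : S_wmap) (h9 : S_amap) (h10 : S_mazur) (h11 : S_bump) : S_fin := by
  classical
  intro E _ _ _ hrefl ρ hρ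
  obtain ⟨w, hw⟩ := h5 E hrefl ρ hρ
  set b : ℚ → E := fun x => ρ (tr x) w with hb
  have hgb : ∀ (g : G) (x : ℚ), ρ g (b x) = b (act g x) := fun g x => rho_b ρ w hw g x
  -- boundedness
  have hbd : ∀ x : ℚ, 0 < x → x < 1 → ‖b x - b 0‖ = ‖b (1 / 2) - b 0‖ := by
    intro x hx0 hx1
    obtain ⟨g, hg1, hg2⟩ := h11 0 1 (1 / 2) x le_rfl (by norm_num) (by norm_num) hx0 hx1 le_rfl
    have hg0 : act g 0 = 0 := hg2 0 le_rfl one_pos (Or.inl le_rfl)
    have h := rho_dist ρ g (b (1 / 2)) (b 0)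
    rwa [hgb, hgb, hg1, hg0] at h
  obtain ⟨e, he⟩ := h6 E hrefl (fun n => b (xs n)) ⟨‖b (1 / 2) - b 0‖ + ‖b 0‖, fun n => by
    have h := hbd (xs n) (xs_pos n) (xs_lt_one n)
    have h' : b (xs n) = (b (xs n) - b 0) + b 0 := by abel
    rw [h', ← h]
    exact norm_add_le _ _⟩
  -- the stabiliser of `0` fixes `e`
  have hstab : ∀ g : G, act g 0 = 0 → ρ g e = e := by
    refine h4 E ρ hρ e ?_
    rintro g ⟨δ, hδ0, hδ1, hδ⟩
    have h1 : WL (fun n => ρ g (b (xs n))) (ρ g e) := h8 E (ρ g) _ e he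
    refine h7 E (fun n => b (xs n)) _ _ ?_ he
    intro φ
    refine (h1 φ).congr' ?_
    have h2 := ev_hyper (xs_small δ hδ0)
    filter_upwards [h2] with n hn
    rw [hgb, hδ (xs n) (xs_pos n).le hn.le]
  -- the translations fix `e`
  have htr : ∀ c : ℚ, 0 < c → c < 1 → ρ (tr c) e = e := by
    intro c hc0 hc1
    have hc : WL (fun n => b (xs n + c)) (ρ (tr c) e) := by
      have h1 := h8 E (ρ (tr c)) _ e he
      intro φ
      refine (h1 φ).congr fun n => ?_
      show φ (ρ (tr c) (b (xs n))) = φ (b (xs n + c))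
      rw [hgb, act_tr]
    refine h7 E (fun _ => e) _ _ ?_ (fun φ => tendsto_const_nhds)
    intro φ
    have hφ : φ e = φ (ρ (tr c) e) := by
      by_contra hne
      have hpos : 0 < |φ (ρ (tr c) e) - φ e| := abs_pos.2 (sub_ne_zero.2 (Ne.symm hne))
      obtain ⟨η, hη0, hη⟩ : ∃ η : ℝ, 0 < η ∧ η + ‖φ‖ * η < |φ (ρ (tr c) e) - φ e| := by
        refine ⟨|φ (ρ (tr c) e) - φ e| / (2 * (1 + ‖φ‖)), by positivity, ?_⟩
        have h1 : |φ (ρ (tr c) e) - φ e| / (2 * (1 + ‖φ‖)) +
            ‖φ‖ * (|φ (ρ (tr c) e) - φ e| / (2 * (1 + ‖φ‖))) = |φ (ρ (tr c) e) - φ e| / 2 := by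
          have : (1 + ‖φ‖ : ℝ) ≠ 0 := by positivity
          field_simp
        rw [h1]
        linarith
      obtain ⟨s, l, hl0, hl1, hl⟩ := h10 E _ e he η hη0
      -- the set of good indices
      set A : Set ℕ := {n | |φ (b (xs n + c)) - φ (ρ (tr c) e)| < η ∧ xs n < 1 - c} with hA
      have hAmem : A ∈ (↑(Filter.hyperfilter ℕ) : Filter ℕ) := by
        have h1 := Metric.tendsto_nhds.1 (hc φ) η hη0
        have h2 := ev_hyper (xs_small (1 - c) (by linarith))
        filter_upwards [h1, h2] with n hn1 hn2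
        rw [Real.dist_eq] at hn1
        exact ⟨hn1, hn2⟩
      have hAinf : A.Infinite := fun hfin => Filter.notMem_hyperfilter_of_finite hfin hAmem
      have : Infinite A := hAinf.to_subtype
      let a : ℕ ↪o ℕ := Nat.orderEmbeddingOfSet A
      have ha : ∀ k, a k ∈ A := fun k => by
        have h1 : a k ∈ Set.range a := ⟨k, rfl⟩
        rwa [Nat.orderEmbeddingOfSet_range] at h1
      let o : Fin s.card ↪o ℕ := s.orderEmbOfFin rfl
      obtain ⟨g, hg0, hg⟩ := h3 0 le_rfl one_pos s.card (fun j => xs (o (Fin.rev j)))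
        (fun j => xs (a (Fin.rev j)) + c)
        (by
          intro i j hij
          exact xs_anti (o.lt_iff_lt.2 (Fin.rev_lt_rev.2 hij)))
        (by
          intro i j hij
          have h1 : ((Fin.rev j : Fin s.card) : ℕ) < ((Fin.rev i : Fin s.card) : ℕ) :=
            Fin.rev_lt_rev.2 hij
          have h2 := xs_anti (a.lt_iff_lt.2 h1)
          show xs (a (Fin.rev i)) + c < xs (a (Fin.rev j)) + c
          linarith)
        (fun i => ⟨xs_pos _, xs_lt_one _⟩)
        (fun i => ⟨by have := xs_pos (a (Fin.rev i)); linarith, by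
          have := (ha (Fin.rev i)).2
          linarith⟩)
      have hgz : act g 0 = 0 := hg0 0 le_rfl le_rfl
      have hgs : ∀ i ∈ s, |φ (ρ g (b (xs i))) - φ (ρ (tr c) e)| < η := by
        intro i hi
        have hi' : i ∈ Set.range o := by
          have : Set.range o = (s : Set ℕ) := Finset.range_orderEmbOfFin s rfl
          rw [this]
          exact hi
        obtain ⟨k, rfl⟩ := hi'
        have h1 := hg (Fin.rev k)
        rw [Fin.rev_rev] at h1
        rw [hgb, h1]
        exact (ha _).1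
      have h1 : ρ g (∑ i ∈ s, l i • b (xs i)) = ∑ i ∈ s, l i • ρ g (b (xs i)) :=
        h9 E (ρ g) s l _ hl1
      have h2 : ‖ρ g (∑ i ∈ s, l i • b (xs i)) - e‖ < η := by
        have h := rho_dist ρ g (∑ i ∈ s, l i • b (xs i)) e
        rw [hstab g hgz] at h
        rw [h]
        exact hl
      have h4 : |φ (ρ g (∑ i ∈ s, l i • b (xs i))) - φ (ρ (tr c) e)| ≤ η := by
        have h5 : φ (ρ g (∑ i ∈ s, l i • b (xs i))) - φ (ρ (tr c) e) =
            ∑ i ∈ s, l i * (φ (ρ g (b (xs i))) - φ (ρ (tr c) e)) := by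
          rw [h1, map_sum]
          simp only [map_smul, smul_eq_mul, mul_sub]
          rw [Finset.sum_sub_distrib, ← Finset.sum_mul, hl1, one_mul]
        rw [h5]
        refine (Finset.abs_sum_le_sum_abs _ _).trans ?_
        calc ∑ i ∈ s, |l i * (φ (ρ g (b (xs i))) - φ (ρ (tr c) e))| ≤ ∑ i ∈ s, l i * η := by
              refine Finset.sum_le_sum fun i hi => ?_
              rw [abs_mul, abs_of_nonneg (hl0 i hi)]
              exact mul_le_mul_of_nonneg_left (hgs i hi).le (hl0 i hi)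
          _ = η := by rw [← Finset.sum_mul, hl1, one_mul]
      have h5 : |φ (ρ g (∑ i ∈ s, l i • b (xs i))) - φ e| ≤ ‖φ‖ * η := by
        rw [← map_sub, ← Real.norm_eq_abs]
        refine (φ.le_opNorm _).trans ?_
        exact mul_le_mul_of_nonneg_left h2.le (norm_nonneg _)
      have h6 : |φ (ρ (tr c) e) - φ e| ≤ η + ‖φ‖ * η := by
        have h7 : φ (ρ (tr c) e) - φ e = -(φ (ρ g (∑ i ∈ s, l i • b (xs i))) - φ (ρ (tr c) e)) +
            (φ (ρ g (∑ i ∈ s, l i • b (xs i))) - φ e) := by ring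
        rw [h7]
        refine (abs_add_le _ _).trans (add_le_add ?_ h5)
        rw [abs_neg]
        exact h4
      linarith
    show Tendsto (fun _ : ℕ => φ e) _ _
    rw [hφ]
    exact tendsto_const_nhds
  have hadd : ∀ a c : ℚ, ρ (tr a) e = e → ρ (tr c) e = e → ρ (tr (a + c)) e = e := by
    intro a c ha hc
    rw [tr_add, rho_mul, hc, ha]
  have hzero : ρ (tr 0) e = e := by rw [tr_zero, rho_one]
  have hnonneg : ∀ c : ℚ, 0 ≤ c → ρ (tr c) e = e := by
    intro c hc
    rcases hc.eq_or_lt with h0 | hc0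
    · rw [← h0]; exact hzero
    obtain ⟨n, hn⟩ := exists_nat_gt c
    have hn0 : (0 : ℚ) < n := hc0.trans hn
    have hcn : ρ (tr (c / n)) e = e := htr _ (by positivity) (by rw [div_lt_one hn0]; exact hn)
    have hk : ∀ k : ℕ, ρ (tr (k * (c / n))) e = e := by
      intro k
      induction k with
      | zero => simpa using hzero
      | succ k ih =>
        have h1 : ((k + 1 : ℕ) : ℚ) * (c / n) = k * (c / n) + c / n := by push_cast; ring
        rw [h1]
        exact hadd _ _ ih hcn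
    have h1 := hk n
    have h2 : (n : ℚ) * (c / n) = c := by field_simp
    rwa [h2] at h1
  have hall : ∀ c : ℚ, ρ (tr c) e = e := by
    intro c
    rcases le_total 0 c with h | h
    · exact hnonneg c h
    · have h1 := hnonneg (-c) (by linarith)
      have h2 : ρ (tr c * tr (-c)) e = e := by
        rw [← tr_add, add_neg_cancel]; exact hzero
      rw [rho_mul, h1] at h2
      exact h2
  refine ⟨e, fun g => ?_⟩
  have h1 : act ((tr (act g 0))⁻¹ * g) 0 = 0 := by
    rw [act_mul]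
    exact tr_inv_self _
  have h2 := hstab _ h1
  have h3 : g = tr (act g 0) * ((tr (act g 0))⁻¹ * g) := by rw [mul_inv_cancel_left]
  rw [h3, rho_mul, h2]
  exact hall _

end Pool.Agent.Y938.AQ
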