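import Pool.Agent.Y938.AQ.Stm

set_option autoImplicit false

/-! Project AQ (frozen S00938): density and the fixed vector of the stabiliser of `0`. -/

namespace Pool.Agent.Y938.AQ

open Filter Topology

noncomputable section

namespace FixV

theorem act_add_nat (g : G) (x : ℚ) (n : ℕ) : act g (x + n) = act g x + n := by
  induction n with
  | zero => simp
  | succ n ih =>
    have h : x + ((n + 1 : ℕ) : ℚ) = (x + n) + 1 := by push_cast; ring
    rw [h, act_add_one, ih]
    push_cast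
    ring

theorem act_add_int (g : G) (x : ℚ) (m : ℤ) : act g (x + m) = act g x + m := by
  obtain ⟨n, rfl | rfl⟩ := m.eq_nat_or_neg
  · have := act_add_nat g x n
    simpa using this
  · have h1 := act_add_nat g (x + ((-(n : ℤ) : ℤ) : ℚ)) n
    have h2 : x + ((-(n : ℤ) : ℤ) : ℚ) + (n : ℚ) = x := by push_cast; ring
    rw [h2] at h1
    rw [h1]
    push_cast
    ring

/-- An element which fixes the fractional part fixes the number. -/
theorem act_fract (g : G) (x : ℚ) (h : act g (Int.fract x) = Int.fract x) : act g x = x := by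
  have h1 : Int.fract x + (⌊x⌋ : ℤ) = x := Int.fract_add_floor x
  have h2 := act_add_int g (Int.fract x) ⌊x⌋
  rw [h1, h, h1] at h2
  exact h2

theorem inv_fix (g : G) (x : ℚ) (h : act g x = x) : act g⁻¹ x = x := by
  have h1 := act_inv_act g x
  rwa [h] at h1

section rho

variable {E : Type} [NormedAddCommGroup E] [NormedSpace ℝ E] (ρ : G →* (E ≃ᵃⁱ[ℝ] E))

theorem rho_mul (g h : G) (v : E) : ρ (g * h) v = ρ g (ρ h v) := by
  rw [map_mul]; rfl

theorem rho_one (v : E) : ρ 1 v = v := by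
  rw [map_one]; rfl

theorem rho_norm (g : G) (v w : E) : ‖ρ g v - ρ g w‖ = ‖v - w‖ := by
  rw [← dist_eq_norm, ← dist_eq_norm, (ρ g).dist_map]

/-- Elements near the identity move a vector little. -/
theorem near (h1 : S_nhd) (hc : ∀ v : E, Continuous (fun g : G => ρ g v)) (w : E) (ε : ℝ)
    (hε : 0 < ε) : ∃ F : Finset ℚ, ∀ g : G, (∀ x ∈ F, act g x = x) → ‖ρ g w - w‖ < ε := by
  have hU : {g : G | ‖ρ g w - w‖ < ε} ∈ 𝓝 (1 : G) := by
    have ho : IsOpen {g : G | ‖ρ g w - w‖ < ε} :=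
      isOpen_lt ((hc w).sub continuous_const).norm continuous_const
    refine ho.mem_nhds ?_
    show ‖ρ 1 w - w‖ < ε
    rw [rho_one, sub_self, norm_zero]
    exact hε
  obtain ⟨F, hF⟩ := h1 _ hU
  exact ⟨F, fun g hg => hF g hg⟩

end rho

end FixV

open FixV

theorem dense_spec (h1 : S_nhd) (h3 : S_hom) : S_dense := by
  intro E _ _ ρ hc w hw g hg0
  have hg1 : act g 1 = 1 := by
    have := act_add_one g 0
    rw [hg0] at this
    simpa using this
  have key : ∀ ε : ℝ, 0 < ε → ‖ρ g w - w‖ < ε := by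
    intro ε hε
    obtain ⟨F, hF⟩ := near ρ h1 hc w ε hε
    classical
    set F1 : Finset ℚ := (F.image Int.fract).filter (fun x => 0 < x) with hF1
    have hF1m : ∀ x ∈ F1, 0 < x ∧ x < 1 := by
      intro x hx
      rw [hF1, Finset.mem_filter, Finset.mem_image] at hx
      obtain ⟨⟨z, _, rfl⟩, hz⟩ := hx
      exact ⟨hz, Int.fract_lt_one z⟩
    let x : Fin F1.card → ℚ := fun i => F1.orderEmbOfFin rfl i
    have hxm : ∀ i, x i ∈ F1 := fun i => Finset.orderEmbOfFin_mem F1 rfl i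
    have hxs : StrictMono x := fun i j hij => (F1.orderEmbOfFin rfl).strictMono hij
    let y : Fin F1.card → ℚ := fun i => act g (x i)
    have hys : StrictMono y := fun i j hij => (act_lt g).2 (hxs hij)
    have hx01 : ∀ i, 0 < x i ∧ x i < 1 := fun i => hF1m _ (hxm i)
    have hy01 : ∀ i, 0 < y i ∧ y i < 1 := by
      intro i
      constructor
      · have := (act_lt g).2 (hx01 i).1
        rwa [hg0] at this
      · have := (act_lt g).2 (hx01 i).2
        rwa [hg1] at this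
    obtain ⟨δ, hδ0, hδ1, hδx, hδy⟩ : ∃ δ : ℚ, 0 < δ ∧ δ < 1 ∧ (∀ i, δ < x i) ∧ ∀ i, δ < y i := by
      have hgen : ∀ S : Finset ℚ, (∀ s ∈ S, 0 < s) → ∃ δ : ℚ, 0 < δ ∧ δ < 1 ∧ ∀ s ∈ S, δ < s := by
        intro S
        induction S using Finset.induction_on with
        | empty => intro _; exact ⟨1 / 2, by norm_num, by norm_num, by simp⟩
        | insert a S _ ih =>
          intro hS
          obtain ⟨δ, h0, h1', h2⟩ := ih (fun s hs => hS s (Finset.mem_insert_of_mem hs))
          have ha := hS a (Finset.mem_insert_self _ _)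
          refine ⟨min δ (a / 2), lt_min h0 (by linarith), (min_le_left _ _).trans_lt h1', ?_⟩
          intro s hs
          rcases Finset.mem_insert.1 hs with rfl | hs
          · exact (min_le_right _ _).trans_lt (by linarith)
          · exact (min_le_left _ _).trans_lt (h2 s hs)
      obtain ⟨δ, h0, h1', h2⟩ := hgen (Finset.univ.image x ∪ Finset.univ.image y) (by
        intro s hs
        rcases Finset.mem_union.1 hs with h | h
        · obtain ⟨i, _, rfl⟩ := Finset.mem_image.1 h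
          exact (hx01 i).1
        · obtain ⟨i, _, rfl⟩ := Finset.mem_image.1 h
          exact (hy01 i).1)
      exact ⟨δ, h0, h1', fun i => h2 _ (Finset.mem_union_left _
        (Finset.mem_image_of_mem _ (Finset.mem_univ i))), fun i => h2 _ (Finset.mem_union_right _
        (Finset.mem_image_of_mem _ (Finset.mem_univ i)))⟩
    obtain ⟨h', hh0, hhx⟩ := h3 δ hδ0.le hδ1 F1.card x y hxs hys
      (fun i => ⟨hδx i, (hx01 i).2⟩) (fun i => ⟨hδy i, (hy01 i).2⟩)
    have hk : ∀ z ∈ F, act (h'⁻¹ * g) z = z := by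
      intro z hz
      apply act_fract
      rcases (Int.fract_nonneg z).eq_or_lt with h0 | h0
      · rw [← h0, act_mul, hg0]
        exact inv_fix h' 0 (hh0 0 le_rfl hδ0.le)
      · have hzF : Int.fract z ∈ F1 := by
          rw [hF1, Finset.mem_filter]
          exact ⟨Finset.mem_image_of_mem _ hz, h0⟩
        obtain ⟨i, hi⟩ : ∃ i, x i = Int.fract z := by
          have : Int.fract z ∈ Set.range (F1.orderEmbOfFin rfl) := by
            rw [Finset.range_orderEmbOfFin]
            exact hzF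
          exact this
        rw [← hi, act_mul]
        have h5 : act g (x i) = act h' (x i) := (hhx i).symm
        rw [h5, act_inv_act]
    have h6 := hF _ hk
    have h7 : ρ g w = ρ h' (ρ (h'⁻¹ * g) w) := by
      rw [← rho_mul]
      congr 2
      group
    have h8 : ρ h' w = w := hw h' ⟨δ, hδ0, hδ1, hh0⟩
    calc ‖ρ g w - w‖ = ‖ρ h' (ρ (h'⁻¹ * g) w) - ρ h' w‖ := by rw [h7, h8]
      _ = ‖ρ (h'⁻¹ * g) w - w‖ := rho_norm ρ _ _ _
      _ < ε := h6
  have h9 : ‖ρ g w - w‖ ≤ 0 := le_of_forall_pos_lt_add (fun ε hε => by simpa using key ε hε)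
  have h10 : ‖ρ g w - w‖ = 0 := le_antisymm h9 (norm_nonneg _)
  exact sub_eq_zero.1 (norm_eq_zero.1 h10)

theorem fixV_spec (h1 : S_nhd) (h2 : S_bump) (h4 : S_bdd) (h5 : S_dense) (h6 : S_wlim)
    (h7 : S_wuniq) (h8 : S_wnear) (h9 : S_wmap) : S_fixV := by
  intro E _ _ _ hrefl ρ hc
  have hex : ∀ n : ℕ, ∃ g : G, act g (1 - 1 / ((n : ℚ) + 2)) = 1 / ((n : ℚ) + 2) ∧ act g 0 = 0 := by
    intro n
    have hn : (0 : ℚ) < (n : ℚ) + 2 := by positivity
    have hn1 : 1 / ((n : ℚ) + 2) < 1 := by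
      rw [div_lt_one hn]
      have : (0 : ℚ) ≤ n := Nat.cast_nonneg n
      linarith
    have hn0 : 0 < 1 / ((n : ℚ) + 2) := by positivity
    obtain ⟨g, hg, hg'⟩ := h2 0 1 (1 - 1 / ((n : ℚ) + 2)) (1 / ((n : ℚ) + 2)) le_rfl (by linarith)
      (by linarith) hn0 hn1 le_rfl
    exact ⟨g, hg, hg' 0 le_rfl one_pos (Or.inl le_rfl)⟩
  choose gs hgs hgs0 using hex
  obtain ⟨C, hC⟩ := h4 E ρ hc 0
  obtain ⟨w, hw⟩ := h6 E hrefl (fun n => ρ (gs n) 0) ⟨C, fun n => by
    have := hC (gs n) (hgs0 n)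
    simpa using this⟩
  refine ⟨w, h5 E ρ hc w ?_⟩
  rintro h ⟨δ, hδ0, hδ1, hh⟩
  have hlim : Tendsto (fun n => ‖ρ h (ρ (gs n) 0) - ρ (gs n) 0‖) atTop (𝓝 0) := by
    rw [Metric.tendsto_atTop]
    intro ε hε
    obtain ⟨F, hF⟩ := near ρ h1 hc 0 ε hε
    have hevent : ∀ᶠ n : ℕ in atTop, 1 / ((n : ℚ) + 2) ≤ δ ∧ ∀ z ∈ F,
        Int.fract z ≤ 1 - 1 / ((n : ℚ) + 2) := by
      have hgen : ∀ η : ℚ, 0 < η → ∀ᶠ n : ℕ in atTop, 1 / ((n : ℚ) + 2) ≤ η := by
        intro η hη
        obtain ⟨N, hN⟩ := exists_nat_gt (1 / η)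
        filter_upwards [eventually_ge_atTop N] with n hn
        have hn' : (N : ℚ) ≤ n := by exact_mod_cast hn
        have hpos : (0 : ℚ) < (n : ℚ) + 2 := by positivity
        rw [div_le_iff₀ hpos]
        rw [div_lt_iff₀ hη] at hN
        nlinarith
      refine (hgen δ hδ0).and ?_
      rw [Filter.eventually_all_finset]
      intro z _
      filter_upwards [hgen (1 - Int.fract z) (by linarith [Int.fract_lt_one z])] with n hn
      linarith
    obtain ⟨N, hN⟩ := eventually_atTop.1 hevent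
    refine ⟨N, fun n hn => ?_⟩
    obtain ⟨hn1, hn2⟩ := hN n hn
    have hfix : ∀ z ∈ F, act ((gs n)⁻¹ * (h * gs n)) z = z := by
      intro z hz
      apply act_fract
      rw [act_mul, act_mul]
      have e1 : 0 ≤ act (gs n) (Int.fract z) := by
        have := (act_le (gs n)).2 (Int.fract_nonneg z)
        rwa [hgs0 n] at this
      have e2 : act (gs n) (Int.fract z) ≤ 1 / ((n : ℚ) + 2) := by
        have := (act_le (gs n)).2 (hn2 z hz)
        rwa [hgs n] at this
      rw [hh _ e1 (e2.trans hn1), act_inv_act]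
    have h10 := hF _ hfix
    have h11 : ‖ρ h (ρ (gs n) 0) - ρ (gs n) 0‖ = ‖ρ ((gs n)⁻¹ * (h * gs n)) 0 - 0‖ := by
      rw [← rho_norm ρ (gs n)⁻¹ (ρ h (ρ (gs n) 0)) (ρ (gs n) 0), ← rho_mul, ← rho_mul, ← rho_mul,
        inv_mul_cancel, rho_one, mul_assoc]
    rw [Real.dist_eq, sub_zero, abs_of_nonneg (norm_nonneg _), h11]
    exact h10
  have hlim' : Tendsto (fun n => ‖ρ h (ρ (gs n) 0) - ρ (gs n) 0‖)
      (↑(Filter.hyperfilter ℕ) : Filter ℕ) (𝓝 0) :=
    hlim.mono_left (Nat.hyperfilter_le_atTop)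
  have h12 : WL (fun n => ρ h (ρ (gs n) 0)) (ρ h w) := h9 E (ρ h) _ w hw
  have h13 : WL (fun n => ρ (gs n) 0) (ρ h w) := h8 E _ _ _ h12 hlim'
  exact h7 E _ _ _ h13 hw

end

end Pool.Agent.Y938.AQ
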