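import Pool.Agent.Y938.AQ.Stm

set_option autoImplicit false

/-! Project AQ: homogeneity of finite increasing sequences (helper994). -/

namespace Pool.Agent.Y938.AQ

namespace Hom

theorem act_zero_of (g : G) {δ : ℚ} (hδ : 0 ≤ δ) (h : ∀ t : ℚ, 0 ≤ t → t ≤ δ → act g t = t) :
    act g 0 = 0 := h 0 le_rfl hδ

theorem act_lt_one (g : G) (h0 : act g 0 = 0) {t : ℚ} (ht : t < 1) : act g t < 1 := by
  have h1 : act g 1 = 1 := by
    have := act_add_one g 0
    rw [h0] at this
    simpa using this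
  calc act g t < act g 1 := (act_lt g).2 ht
    _ = 1 := h1

end Hom

theorem hom_spec (h : S_bump) : S_hom := by
  intro δ hδ0 hδ1 n
  induction n generalizing δ with
  | zero =>
    intro x y _ _ _ _
    exact ⟨1, fun t _ _ => act_one t, fun i => i.elim0⟩
  | succ n ih =>
    intro x y hx hy hxb hyb
    obtain ⟨g, hg, hgid⟩ := h δ 1 (x 0) (y 0) hδ0 (hxb 0).1 (hxb 0).2 (hyb 0).1 (hyb 0).2 le_rfl
    have hgδ : ∀ t : ℚ, 0 ≤ t → t ≤ δ → act g t = t := fun t h0 ht =>
      hgid t h0 (lt_of_le_of_lt ht hδ1) (Or.inl ht)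
    have hg0 : act g 0 = 0 := Hom.act_zero_of g hδ0 hgδ
    obtain ⟨g', hg'id, hg'⟩ := ih (y 0) (le_trans hδ0 (hyb 0).1.le) (hyb 0).2
      (fun i => act g (x i.succ)) (fun i => y i.succ)
      (fun i j hij => (act_lt g).2 (hx (Fin.succ_lt_succ_iff.2 hij)))
      (fun i j hij => hy (Fin.succ_lt_succ_iff.2 hij))
      (fun i => ⟨by
        have : act g (x 0) < act g (x i.succ) := (act_lt g).2 (hx (Fin.succ_pos i))
        rwa [hg] at this, Hom.act_lt_one g hg0 (hxb _).2⟩)
      (fun i => ⟨hy (Fin.succ_pos i), (hyb _).2⟩)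
    refine ⟨g' * g, ?_, ?_⟩
    · intro t h0 ht
      rw [act_mul, hgδ t h0 ht]
      exact hg'id t h0 (le_trans ht (hyb 0).1.le)
    · intro i
      refine Fin.cases ?_ (fun i => ?_) i
      · rw [act_mul, hg]
        exact hg'id _ (le_trans hδ0 (hyb 0).1.le) le_rfl
      · rw [act_mul]
        exact hg' i

end Pool.Agent.Y938.AQ
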