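import Pool.Agent.Y938.AQ.Stm

set_option autoImplicit false

/-! Project AQ: Mazur's lemma along an ultrafilter (helper38). -/

namespace Pool.Agent.Y938.AQ

open Filter Topology

theorem mazur_spec : S_mazur := by
  classical
  intro E _ _ u w h ε hε
  have hw : w ∈ closure (convexHull ℝ (Set.range u)) := by
    by_contra hc
    obtain ⟨f, s, h1, h2⟩ := geometric_hahn_banach_point_closed
      (convex_convexHull ℝ (Set.range u)).closure isClosed_closure hc
    have h3 : s ≤ f w := ge_of_tendsto' (h f) (fun n =>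
      (h2 (u n) (subset_closure (subset_convexHull ℝ _ ⟨n, rfl⟩))).le)
    linarith
  obtain ⟨b, hb, hdb⟩ := Metric.mem_closure_iff.1 hw ε hε
  rw [convexHull_eq] at hb
  obtain ⟨ι, t, c, z, hc0, hc1, hz, rfl⟩ := hb
  choose! n hn using hz
  refine ⟨t.image n, fun j => ∑ i ∈ t.filter (fun i => n i = j), c i, ?_, ?_, ?_⟩
  · intro j _
    exact Finset.sum_nonneg (fun i hi => hc0 i (Finset.mem_filter.1 hi).1)
  · rw [Finset.sum_fiberwise_of_maps_to (fun i hi => Finset.mem_image_of_mem n hi)]
    exact hc1
  · have e : ∑ j ∈ t.image n, (∑ i ∈ t.filter (fun i => n i = j), c i) • u j =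
        t.centerMass c z := by
      rw [Finset.centerMass_eq_of_sum_1 _ _ hc1,
        ← Finset.sum_fiberwise_of_maps_to (fun i hi => Finset.mem_image_of_mem n hi)]
      refine Finset.sum_congr rfl (fun j _ => ?_)
      rw [Finset.sum_smul]
      refine Finset.sum_congr rfl (fun i hi => ?_)
      obtain ⟨h1, h2⟩ := Finset.mem_filter.1 hi
      rw [← hn i h1, h2]
    rw [e, ← dist_eq_norm, dist_comm]
    exact hdb

end Pool.Agent.Y938.AQ
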