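import Pool.Agent.Y938.AQ.Stm

set_option autoImplicit false

/-! Project AQ (frozen S00938): the group does not have property (OB). -/

namespace Pool.Agent.Y938.AQ

open Filter Topology

noncomputable section

namespace NotOB

/-- the rational numbers with the distance rounded up -/
def X : Type := ℚ

/-- the rational number -/
def toQ (x : X) : ℚ := x

instance : MetricSpace X where
  dist x y := ((⌈|toQ x - toQ y|⌉ : ℤ) : ℝ)
  dist_self x := by simp
  dist_comm x y := by rw [abs_sub_comm]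
  dist_triangle x y z := by
    have h : ⌈|toQ x - toQ z|⌉ ≤ ⌈|toQ x - toQ y|⌉ + ⌈|toQ y - toQ z|⌉ := by
      rw [Int.ceil_le]
      push_cast
      calc |toQ x - toQ z| ≤ |toQ x - toQ y| + |toQ y - toQ z| := abs_sub_le _ _ _
        _ ≤ _ := add_le_add (Int.le_ceil _) (Int.le_ceil _)
    exact_mod_cast h
  eq_of_dist_eq_zero := by
    intro x y h
    have h1 : ⌈|toQ x - toQ y|⌉ = 0 := by exact_mod_cast h
    have h2 := Int.le_ceil |toQ x - toQ y|
    rw [h1, Int.cast_zero] at h2
    have h3 : toQ x - toQ y = 0 := abs_eq_zero.1 (le_antisymm h2 (abs_nonneg _))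
    have h4 : toQ x = toQ y := sub_eq_zero.1 h3
    exact h4

theorem dist_def (x y : X) : dist x y = ((⌈|toQ x - toQ y|⌉ : ℤ) : ℝ) := rfl

theorem act_add_nat (g : G) (x : ℚ) (n : ℕ) : act g (x + n) = act g x + n := by
  induction n with
  | zero => simp
  | succ n ih => rw [Nat.cast_succ, ← add_assoc, act_add_one, ih, add_assoc]

theorem act_add_int (g : G) (x : ℚ) (n : ℤ) : act g (x + n) = act g x + n := by
  obtain ⟨m, rfl | rfl⟩ := n.eq_nat_or_neg
  · rw [Int.cast_natCast, act_add_nat]
  · have h := act_add_nat g (x - m) m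
    rw [sub_add_cancel] at h
    rw [h]
    push_cast
    rw [← sub_eq_add_neg]
    ring

theorem act_abs_le (g : G) (x y : ℚ) (n : ℤ) : |act g x - act g y| ≤ n ↔ |x - y| ≤ n := by
  rw [abs_sub_le_iff, abs_sub_le_iff, sub_le_iff_le_add', sub_le_iff_le_add', sub_le_iff_le_add',
    sub_le_iff_le_add', ← act_add_int, ← act_add_int, act_le, act_le]

theorem act_ceil (g : G) (x y : ℚ) : ⌈|act g x - act g y|⌉ = ⌈|x - y|⌉ := by
  apply le_antisymm
  · rw [Int.ceil_le, act_abs_le]
    exact Int.le_ceil _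
  · rw [Int.ceil_le, ← act_abs_le g]
    exact Int.le_ceil _

/-- the isometries -/
def iso (g : G) : X ≃ᵢ X where
  toFun x := act g x
  invFun x := act g⁻¹ x
  left_inv x := act_inv_act g x
  right_inv x := act_act_inv g x
  isometry_toFun := by
    refine Isometry.of_dist_eq fun x y => ?_
    change ((⌈|act g (toQ x) - act g (toQ y)|⌉ : ℤ) : ℝ) = ((⌈|toQ x - toQ y|⌉ : ℤ) : ℝ)
    rw [act_ceil]

/-- the action by isometries -/
def rho : G →* (X ≃ᵢ X) where
  toFun := iso
  map_one' := by
    ext x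
    rfl
  map_mul' g h := by
    ext x
    rfl

end NotOB

theorem notOB_spec (h : S_ev) : S_notOB := by
  intro H
  have hc : ∀ x : NotOB.X, Continuous fun g : G => NotOB.rho g x := by
    intro x
    refine continuous_iff_continuousAt.2 fun g0 => ?_
    have h1 : ∀ᶠ g : G in 𝓝 g0, NotOB.rho g x = NotOB.rho g0 x := by
      filter_upwards [(h x (act g0 x)).mem_nhds rfl] with g hg
      exact hg
    exact (continuousAt_const (y := NotOB.rho g0 x)).congr (h1.mono fun g hg => hg.symm)
  have hb := H NotOB.X NotOB.rho hc (0 : ℚ)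
  obtain ⟨C, hC⟩ := Metric.isBounded_iff.1 hb
  obtain ⟨n, hn⟩ := exists_nat_gt C
  have h2 := hC (Set.mem_range_self (tr n)) (Set.mem_range_self (1 : G))
  have h3 : dist (NotOB.rho (tr n) (0 : ℚ)) (NotOB.rho 1 (0 : ℚ)) = n := by
    rw [NotOB.dist_def]
    have h4 : NotOB.toQ (NotOB.rho (tr n) (0 : ℚ)) - NotOB.toQ (NotOB.rho 1 (0 : ℚ)) = n := by
      change (0 + (n : ℚ)) - 0 = n
      ring
    rw [h4, Nat.abs_cast, Int.ceil_natCast, Int.cast_natCast]
  rw [h3] at h2
  linarith

end

end Pool.Agent.Y938.AQ
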