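import Pool.Agent.Y938.AQ.Stm

/-! Project AQ (helper938), part AQ2 (helper274): the group is Polish. -/

set_option autoImplicit false

namespace Pool.Agent.Y938.AQ

open Filter Topology

namespace Pol

theorem emb_inj : Function.Injective emb := by
  intro g h hgh
  apply G_ext
  intro x
  have h1 := congrFun (congrArg Prod.fst hgh) x
  exact (Denumerable.eqv ℚ).injective h1

theorem isOpen_fst (x : ℚ) (n : ℕ) : IsOpen {f : (ℚ → ℕ) × (ℚ → ℕ) | f.1 x = n} := by
  have h : Continuous fun f : (ℚ → ℕ) × (ℚ → ℕ) => f.1 x := by fun_prop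
  exact (isOpen_discrete ({n} : Set ℕ)).preimage h

theorem isOpen_snd (x : ℚ) (n : ℕ) : IsOpen {f : (ℚ → ℕ) × (ℚ → ℕ) | f.2 x = n} := by
  have h : Continuous fun f : (ℚ → ℕ) × (ℚ → ℕ) => f.2 x := by fun_prop
  exact (isOpen_discrete ({n} : Set ℕ)).preimage h

theorem isClosed_fst (x : ℚ) (n : ℕ) : IsClosed {f : (ℚ → ℕ) × (ℚ → ℕ) | f.1 x = n} := by
  have h : Continuous fun f : (ℚ → ℕ) × (ℚ → ℕ) => f.1 x := by fun_prop
  exact (isClosed_discrete ({n} : Set ℕ)).preimage h

theorem isClosed_snd (x : ℚ) (n : ℕ) : IsClosed {f : (ℚ → ℕ) × (ℚ → ℕ) | f.2 x = n} := by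
  have h : Continuous fun f : (ℚ → ℕ) × (ℚ → ℕ) => f.2 x := by fun_prop
  exact (isClosed_discrete ({n} : Set ℕ)).preimage h

/-- the closed conditions -/
def Cd (f : (ℚ → ℕ) × (ℚ → ℕ)) : Prop :=
  (∀ x y : ℚ, f.2 x = Denumerable.eqv ℚ y → f.1 y = Denumerable.eqv ℚ x) ∧
  (∀ x y : ℚ, f.1 x = Denumerable.eqv ℚ y → f.2 y = Denumerable.eqv ℚ x) ∧
  (∀ x y a b : ℚ, x < y → ¬ a < b → f.1 x = Denumerable.eqv ℚ a →
    f.1 y = Denumerable.eqv ℚ b → False) ∧
  ∀ x a : ℚ, f.1 x = Denumerable.eqv ℚ a → f.1 (x + 1) = Denumerable.eqv ℚ (a + 1)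

theorem isClosed_Cd : IsClosed {f | Cd f} := by
  have h1 : IsClosed {f : (ℚ → ℕ) × (ℚ → ℕ) | ∀ x y : ℚ, f.2 x = Denumerable.eqv ℚ y →
      f.1 y = Denumerable.eqv ℚ x} := by
    simp only [Set.ofPred_forall]
    exact isClosed_iInter fun x => isClosed_iInter fun y =>
      isClosed_imp (isOpen_snd _ _) (isClosed_fst _ _)
  have h2 : IsClosed {f : (ℚ → ℕ) × (ℚ → ℕ) | ∀ x y : ℚ, f.1 x = Denumerable.eqv ℚ y →
      f.2 y = Denumerable.eqv ℚ x} := by
    simp only [Set.ofPred_forall]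
    exact isClosed_iInter fun x => isClosed_iInter fun y =>
      isClosed_imp (isOpen_fst _ _) (isClosed_snd _ _)
  have h3 : IsClosed {f : (ℚ → ℕ) × (ℚ → ℕ) | ∀ x y a b : ℚ, x < y → ¬ a < b →
      f.1 x = Denumerable.eqv ℚ a → f.1 y = Denumerable.eqv ℚ b → False} := by
    simp only [Set.ofPred_forall]
    refine isClosed_iInter fun x => isClosed_iInter fun y => isClosed_iInter fun a =>
      isClosed_iInter fun b => isClosed_iInter fun _ => isClosed_iInter fun _ => ?_
    exact isClosed_imp (isOpen_fst _ _) (isClosed_imp (isOpen_fst _ _) isClosed_empty)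
  have h4 : IsClosed {f : (ℚ → ℕ) × (ℚ → ℕ) | ∀ x a : ℚ, f.1 x = Denumerable.eqv ℚ a →
      f.1 (x + 1) = Denumerable.eqv ℚ (a + 1)} := by
    simp only [Set.ofPred_forall]
    exact isClosed_iInter fun x => isClosed_iInter fun y =>
      isClosed_imp (isOpen_fst _ _) (isClosed_fst _ _)
  exact h1.inter (h2.inter (h3.inter h4))

theorem range_emb : Set.range emb = {f | Cd f} := by
  ext f
  constructor
  · rintro ⟨g, rfl⟩
    refine ⟨fun x y h => ?_, fun x y h => ?_, fun x y a b hxy hab h h' => ?_, fun x a h => ?_⟩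
    · have h1 : act g⁻¹ x = y := (Denumerable.eqv ℚ).injective h
      show Denumerable.eqv ℚ (act g y) = _
      rw [← h1, act_act_inv]
    · have h1 : act g x = y := (Denumerable.eqv ℚ).injective h
      show Denumerable.eqv ℚ (act g⁻¹ y) = _
      rw [← h1, act_inv_act]
    · have h1 : act g x = a := (Denumerable.eqv ℚ).injective h
      have h2 : act g y = b := (Denumerable.eqv ℚ).injective h'
      apply hab
      rw [← h1, ← h2]
      exact (act_lt g).2 hxy
    · have h1 : act g x = a := (Denumerable.eqv ℚ).injective h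
      show Denumerable.eqv ℚ (act g (x + 1)) = _
      rw [act_add_one, h1]
  · rintro ⟨h1, h2, h3, h4⟩
    have hp : ∀ x, f.1 x = Denumerable.eqv ℚ ((Denumerable.eqv ℚ).symm (f.1 x)) := fun x =>
      ((Denumerable.eqv ℚ).apply_symm_apply _).symm
    have hq : ∀ x, f.2 x = Denumerable.eqv ℚ ((Denumerable.eqv ℚ).symm (f.2 x)) := fun x =>
      ((Denumerable.eqv ℚ).apply_symm_apply _).symm
    have k1 : ∀ x, (Denumerable.eqv ℚ).symm (f.1 ((Denumerable.eqv ℚ).symm (f.2 x))) = x := by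
      intro x
      rw [h1 x _ (hq x), Equiv.symm_apply_apply]
    have k2 : ∀ x, (Denumerable.eqv ℚ).symm (f.2 ((Denumerable.eqv ℚ).symm (f.1 x))) = x := by
      intro x
      rw [h2 x _ (hp x), Equiv.symm_apply_apply]
    have k3 : StrictMono fun x => (Denumerable.eqv ℚ).symm (f.1 x) := by
      intro x y hxy
      by_contra hn
      exact h3 x y _ _ hxy hn (hp x) (hp y)
    have k4 : ∀ x, (Denumerable.eqv ℚ).symm (f.1 (x + 1)) =
        (Denumerable.eqv ℚ).symm (f.1 x) + 1 := by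
      intro x
      rw [h4 x _ (hp x), Equiv.symm_apply_apply]
    refine ⟨mkG (fun x => (Denumerable.eqv ℚ).symm (f.1 x))
      (fun x => (Denumerable.eqv ℚ).symm (f.2 x)) k1 k2 k3 k4, ?_⟩
    apply Prod.ext
    · funext x
      exact (Denumerable.eqv ℚ).apply_symm_apply _
    · funext x
      exact (Denumerable.eqv ℚ).apply_symm_apply _

theorem closedEmb : IsClosedEmbedding emb :=
  ⟨⟨⟨rfl⟩, emb_inj⟩, by rw [range_emb]; exact isClosed_Cd⟩

end Pol

theorem pol_spec : S_pol := by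
  have h : PolishSpace G := Pol.closedEmb.polishSpace
  exact h

end Pool.Agent.Y938.AQ
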