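import Pool.Agent.Y938.AQ.Stm

set_option autoImplicit false

/-! Project AQ (frozen S00938): the topological group. -/

namespace Pool.Agent.Y938.AQ

open Filter Topology

namespace Top

theorem isOpen_ev (x y : ℚ) : IsOpen {g : G | act g x = y} := by
  have h1 : Continuous emb := continuous_induced_dom
  have h2 : Continuous fun g : G => (emb g).1 x := (continuous_apply x).comp (continuous_fst.comp h1)
  have h3 : {g : G | act g x = y} = (fun g : G => (emb g).1 x) ⁻¹' {Denumerable.eqv ℚ y} := by
    ext g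
    simp only [Set.mem_ofPred_eq, Set.mem_preimage, Set.mem_singleton_iff, emb]
    exact (Denumerable.eqv ℚ).injective.eq_iff.symm
  rw [h3]
  exact (isOpen_discrete _).preimage h2

theorem inv_iff (g : G) (x y : ℚ) : act g⁻¹ x = y ↔ act g y = x := by
  constructor
  · intro h
    rw [← h, act_act_inv]
  · intro h
    rw [← h, act_inv_act]

/-- criterion for continuity of maps into the group -/
theorem continuous_of {Z : Type} [TopologicalSpace Z] (f : Z → G)
    (h : ∀ x y : ℚ, IsOpen {z | act (f z) x = y}) : Continuous f := by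
  rw [continuous_induced_rng]
  have key : ∀ x : ℚ, Continuous fun z => Denumerable.eqv ℚ (act (f z) x) := by
    intro x
    rw [continuous_discrete_rng]
    intro n
    have h1 : (fun z => Denumerable.eqv ℚ (act (f z) x)) ⁻¹' {n} =
        {z | act (f z) x = (Denumerable.eqv ℚ).symm n} := by
      ext z
      simp only [Set.mem_preimage, Set.mem_singleton_iff, Set.mem_ofPred_eq]
      exact (Equiv.eq_symm_apply _).symm
    rw [h1]
    exact h _ _
  have key' : ∀ x : ℚ, Continuous fun z => Denumerable.eqv ℚ (act (f z)⁻¹ x) := by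
    intro x
    rw [continuous_discrete_rng]
    intro n
    have h1 : (fun z => Denumerable.eqv ℚ (act (f z)⁻¹ x)) ⁻¹' {n} =
        {z | act (f z) ((Denumerable.eqv ℚ).symm n) = x} := by
      ext z
      simp only [Set.mem_preimage, Set.mem_singleton_iff, Set.mem_ofPred_eq]
      rw [← inv_iff]
      exact (Equiv.eq_symm_apply _).symm
    rw [h1]
    exact h _ _
  exact continuous_prodMk.2 ⟨continuous_pi key, continuous_pi key'⟩

theorem mem_pi {f : ℚ → ℕ} {V : Set (ℚ → ℕ)} (hV : V ∈ 𝓝 f) :
    ∃ F : Finset ℚ, ∀ f' : ℚ → ℕ, (∀ x ∈ F, f' x = f x) → f' ∈ V := by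
  rw [nhds_pi, Filter.mem_pi] at hV
  obtain ⟨I, hI, t, ht, hV⟩ := hV
  refine ⟨hI.toFinset, fun f' hf' => hV fun i hi => ?_⟩
  rw [hf' i (hI.mem_toFinset.2 hi)]
  exact mem_of_mem_nhds (ht i)

/-- the pointwise stabiliser of a finite set -/
def stab (F : Finset ℚ) : Subgroup G where
  carrier := {g | ∀ x ∈ F, act g x = x}
  mul_mem' := by
    intro a b ha hb x hx
    rw [act_mul, hb x hx, ha x hx]
  one_mem' := fun x _ => act_one x
  inv_mem' := by
    intro a ha x hx
    rw [inv_iff]
    exact ha x hx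

theorem isOpen_stab (F : Finset ℚ) : IsOpen ((stab F : Subgroup G) : Set G) := by
  have h1 : ((stab F : Subgroup G) : Set G) = ⋂ x ∈ F, {g : G | act g x = x} := by
    ext g
    simp only [Set.mem_iInter, Set.mem_ofPred_eq, SetLike.mem_coe]
    exact Iff.rfl
  rw [h1]
  exact isOpen_biInter_finset fun x _ => isOpen_ev x x

end Top

theorem ev_spec : S_ev := Top.isOpen_ev

theorem nhd_spec : S_nhd := by
  intro U hU
  rw [nhds_induced, mem_comap] at hU
  obtain ⟨V, hV, hVU⟩ := hU
  rw [nhds_prod_eq, mem_prod_iff] at hV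
  obtain ⟨V1, hV1, V2, hV2, hV⟩ := hV
  obtain ⟨F1, hF1⟩ := Top.mem_pi hV1
  obtain ⟨F2, hF2⟩ := Top.mem_pi hV2
  classical
  refine ⟨F1 ∪ F2, fun g hg => hVU (hV ⟨hF1 _ fun x hx => ?_, hF2 _ fun x hx => ?_⟩)⟩
  · change Denumerable.eqv ℚ (act g x) = Denumerable.eqv ℚ (act 1 x)
    rw [hg x (Finset.mem_union_left _ hx), act_one]
  · change Denumerable.eqv ℚ (act g⁻¹ x) = Denumerable.eqv ℚ (act 1⁻¹ x)
    rw [(Top.inv_iff g x x).2 (hg x (Finset.mem_union_right _ hx)), inv_one, act_one]

theorem na_spec : S_na := by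
  have hmul : Continuous fun p : G × G => p.1 * p.2 := by
    refine Top.continuous_of _ fun x y => ?_
    have h1 : {z : G × G | act (z.1 * z.2) x = y} =
        ⋃ w : ℚ, {g : G | act g w = y} ×ˢ {h : G | act h x = w} := by
      ext ⟨g, h⟩
      simp only [Set.mem_ofPred_eq, Set.mem_iUnion, Set.mem_prod]
      constructor
      · intro h2
        exact ⟨act h x, h2, rfl⟩
      · rintro ⟨w, h2, h3⟩
        rw [act_mul, h3, h2]
    rw [h1]
    exact isOpen_iUnion fun w => (Top.isOpen_ev w y).prod (Top.isOpen_ev x w)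
  have hinv : Continuous fun g : G => g⁻¹ := by
    refine Top.continuous_of _ fun x y => ?_
    have h1 : {g : G | act g⁻¹ x = y} = {g : G | act g y = x} := by
      ext g
      exact Top.inv_iff g x y
    rw [h1]
    exact Top.isOpen_ev y x
  have htop : IsTopologicalGroup G := { continuous_mul := hmul, continuous_inv := hinv }
  refine { continuous_mul := hmul, continuous_inv := hinv, is_nonarchimedean := fun U hU => ?_ }
  obtain ⟨F, hF⟩ := nhd_spec U hU
  exact ⟨⟨Top.stab F, Top.isOpen_stab F⟩, fun g hg => hF g hg⟩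

end Pool.Agent.Y938.AQ
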