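import Pool.Agent.Y938.AQ.Stm

set_option autoImplicit false

/-! Project AQ: weak limits along an ultrafilter (helper38). -/

namespace Pool.Agent.Y938.AQ

open Filter Topology

theorem wlim_spec : S_wlim := by
  intro E _ _ _ hsurj u ⟨C, hC⟩
  have hC0 : 0 ≤ C := (norm_nonneg _).trans (hC 0)
  have hex : ∀ φ : StrongDual ℝ E, ∃ x : ℝ,
      Tendsto (fun n => φ (u n)) (↑(Filter.hyperfilter ℕ) : Filter ℕ) (𝓝 x) ∧
        |x| ≤ C * ‖φ‖ := by
    intro φ
    have hb : ∀ n, φ (u n) ∈ Set.Icc (-(C * ‖φ‖)) (C * ‖φ‖) := by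
      intro n
      have h1 : |φ (u n)| ≤ C * ‖φ‖ := by
        have h2 := φ.le_opNorm (u n)
        rw [Real.norm_eq_abs] at h2
        have h3 := mul_le_mul_of_nonneg_left (hC n) (norm_nonneg φ)
        linarith
      exact abs_le.1 h1
    obtain ⟨x, hx1, hx2⟩ := (isCompact_Icc (a := -(C * ‖φ‖)) (b := C * ‖φ‖)).ultrafilter_le_nhds
      ((Filter.hyperfilter ℕ).map (fun n => φ (u n))) (by
        rw [Filter.le_principal_iff, Ultrafilter.mem_coe, Ultrafilter.mem_map]
        exact Filter.univ_mem' hb)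
    exact ⟨x, hx2, abs_le.2 hx1⟩
  choose L hL hLb using hex
  have hadd : ∀ φ ψ : StrongDual ℝ E, L (φ + ψ) = L φ + L ψ := by
    intro φ ψ
    exact tendsto_nhds_unique (hL (φ + ψ)) ((hL φ).add (hL ψ))
  have hsmul : ∀ (c : ℝ) (φ : StrongDual ℝ E), L (c • φ) = c • L φ := by
    intro c φ
    exact tendsto_nhds_unique (hL (c • φ)) ((hL φ).const_smul c)
  obtain ⟨w, hw⟩ := hsurj (LinearMap.mkContinuous
    { toFun := L, map_add' := hadd, map_smul' := hsmul } C (fun φ => by
      rw [Real.norm_eq_abs]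
      exact hLb φ))
  refine ⟨w, fun φ => ?_⟩
  have h1 : φ w = L φ := by
    have h2 := congrArg (fun T : StrongDual ℝ (StrongDual ℝ E) => T φ) hw
    simp only [NormedSpace.dual_def] at h2
    exact h2
  rw [h1]
  exact hL φ

theorem wuniq_spec : S_wuniq := by
  intro E _ _ u w w' h h'
  rw [SeparatingDual.eq_iff_forall_dual_eq (R := ℝ)]
  intro φ
  exact tendsto_nhds_unique (h φ) (h' φ)

theorem wnear_spec : S_wnear := by
  intro E _ _ u u' w h hd φ
  have h1 : Tendsto (fun n => φ (u n - u' n)) (↑(Filter.hyperfilter ℕ) : Filter ℕ) (𝓝 0) := by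
    refine squeeze_zero_norm (fun n => φ.le_opNorm (u n - u' n)) ?_
    have h2 := hd.const_mul ‖φ‖
    rw [mul_zero] at h2
    exact h2
  have h3 := (h φ).sub h1
  rw [sub_zero] at h3
  refine h3.congr (fun n => ?_)
  rw [map_sub]
  ring

theorem Weak.aff {E : Type} [NormedAddCommGroup E] [NormedSpace ℝ E] (T : E ≃ᵃⁱ[ℝ] E) (x : E) :
    T x = T.linearIsometryEquiv x + T 0 := by
  have h := T.map_vadd (0 : E) x
  simpa using h

theorem wmap_spec : S_wmap := by
  intro E _ _ T u w h φ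
  have h1 := h (φ.comp (T.linearIsometryEquiv.toContinuousLinearEquiv : E →L[ℝ] E))
  have h2 := h1.add_const (φ (T 0))
  have h3 : ∀ x, φ (T x) =
      (φ.comp (T.linearIsometryEquiv.toContinuousLinearEquiv : E →L[ℝ] E)) x + φ (T 0) := by
    intro x
    rw [Weak.aff T x, map_add]
    rfl
  rw [h3 w]
  exact h2.congr (fun n => (h3 (u n)).symm)

theorem amap_spec : S_amap := by
  intro E _ _ T s l u hl
  have h1 : ∀ i, l i • T (u i) = l i • T.linearIsometryEquiv (u i) + l i • T 0 := by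
    intro i
    rw [Weak.aff T (u i), smul_add]
  rw [Weak.aff T, Finset.sum_congr rfl (fun i _ => h1 i), Finset.sum_add_distrib,
    ← Finset.sum_smul, hl, one_smul, map_sum]
  simp only [map_smul]

end Pool.Agent.Y938.AQ
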