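import Mathlib

set_option autoImplicit false

/-! Project AQ (frozen S00938): a non-Archimedean Polish group without property (OB) all of whose continuous affine
isometric actions on reflexive Banach spaces have fixed points: the automorphisms of `(ℚ, <)` that commute with
`x ↦ x + 1`. Definitions. -/

namespace Pool.Agent.Y938.AQ

open Filter Topology

noncomputable section

/-- Order automorphisms of `ℚ` that commute with `x ↦ x + 1`. -/
def GS : Subgroup (ℚ ≃o ℚ) where
  carrier := {g | ∀ x : ℚ, g (x + 1) = g x + 1}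
  mul_mem' := by
    intro a b ha hb x
    show a (b (x + 1)) = a (b x) + 1
    rw [hb x, ha (b x)]
  one_mem' := by
    intro x
    rfl
  inv_mem' := by
    intro a ha x
    show a.symm (x + 1) = a.symm x + 1
    apply a.injective
    rw [a.apply_symm_apply, ha, a.apply_symm_apply]

/-- The group. -/
def G : Type := ↥GS

instance : Group G := inferInstanceAs (Group ↥GS)

/-- The action on `ℚ`. -/
def act (g : G) (x : ℚ) : ℚ := (g.1 : ℚ ≃o ℚ) x

theorem act_one (x : ℚ) : act 1 x = x := rfl

theorem act_mul (g h : G) (x : ℚ) : act (g * h) x = act g (act h x) := rfl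

theorem act_inv_act (g : G) (x : ℚ) : act g⁻¹ (act g x) = x := by
  rw [← act_mul, inv_mul_cancel, act_one]

theorem act_act_inv (g : G) (x : ℚ) : act g (act g⁻¹ x) = x := by
  rw [← act_mul, mul_inv_cancel, act_one]

theorem act_add_one (g : G) (x : ℚ) : act g (x + 1) = act g x + 1 := g.2 x

theorem act_lt (g : G) {x y : ℚ} : act g x < act g y ↔ x < y := (g.1 : ℚ ≃o ℚ).lt_iff_lt

theorem act_le (g : G) {x y : ℚ} : act g x ≤ act g y ↔ x ≤ y := (g.1 : ℚ ≃o ℚ).le_iff_le

theorem G_ext {g h : G} (H : ∀ x, act g x = act h x) : g = h := by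
  apply Subtype.ext
  apply RelIso.ext
  exact H

/-- Construction of elements of the group. -/
def mkG (p q : ℚ → ℚ) (hpq : ∀ x, p (q x) = x) (hqp : ∀ x, q (p x) = x) (hp : StrictMono p)
    (h1 : ∀ x, p (x + 1) = p x + 1) : G :=
  ⟨{ toFun := p, invFun := q, left_inv := hqp, right_inv := hpq, map_rel_iff' := by
      intro a b; exact hp.le_iff_le }, h1⟩

theorem act_mkG (p q : ℚ → ℚ) (hpq : ∀ x, p (q x) = x) (hqp : ∀ x, q (p x) = x) (hp : StrictMono p)
    (h1 : ∀ x, p (x + 1) = p x + 1) (x : ℚ) : act (mkG p q hpq hqp hp h1) x = p x := rfl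

/-- The translations. -/
def tr (c : ℚ) : G :=
  mkG (fun x => x + c) (fun x => x - c) (by intro x; ring) (by intro x; ring)
    (by intro a b h; exact add_lt_add_left h c) (by intro x; ring)

theorem act_tr (c x : ℚ) : act (tr c) x = x + c := rfl

/-- The embedding of the group in a product of discrete spaces. -/
def emb (g : G) : (ℚ → ℕ) × (ℚ → ℕ) :=
  (fun x => Denumerable.eqv ℚ (act g x), fun x => Denumerable.eqv ℚ (act g⁻¹ x))

/-- The topology of pointwise convergence (of the element and its inverse). -/
instance : TopologicalSpace G := TopologicalSpace.induced emb inferInstance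

/-- Weak convergence along a fixed ultrafilter. -/
def WL {E : Type} [NormedAddCommGroup E] [NormedSpace ℝ E] (u : ℕ → E) (w : E) : Prop :=
  ∀ φ : StrongDual ℝ E, Tendsto (fun n => φ (u n)) (↑(Filter.hyperfilter ℕ) : Filter ℕ) (𝓝 (φ w))

end

end Pool.Agent.Y938.AQ
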