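import Pool.Agent.Y938.AQ.Defs

set_option autoImplicit false

/-! Project AQ (frozen S00938): statements of the steps. -/

namespace Pool.Agent.Y938.AQ

open Filter Topology

noncomputable section

/-! ### A. The topological group -/

/-- Neighbourhoods of the identity contain pointwise stabilisers of finite sets. -/
def S_nhd : Prop := ∀ U ∈ 𝓝 (1 : G), ∃ F : Finset ℚ, ∀ g : G, (∀ x ∈ F, act g x = x) → g ∈ U

/-- Evaluation maps are continuous. -/
def S_ev : Prop := ∀ x y : ℚ, IsOpen {g : G | act g x = y}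

/-- The group is a non-Archimedean topological group. -/
def S_na : Prop := NonarchimedeanGroup G

/-- The group is Polish. -/
def S_pol : Prop := PolishSpace G

/-- The group does not have property (OB). -/
def S_notOB : Prop :=
  ¬ (∀ (X : Type) [MetricSpace X] (ρ : G →* (X ≃ᵢ X)),
          (∀ x : X, Continuous (fun g : G => ρ g x)) →
          ∀ x : X, Bornology.IsBounded (Set.range (fun g : G => ρ g x)))

/-! ### B. Homogeneity -/

/-- Elements with support in `(c, d) + ℤ` moving a given point of `(c, d)` to a given point. -/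
def S_bump : Prop :=
  ∀ c d a a' : ℚ, 0 ≤ c → c < a → a < d → c < a' → a' < d → d ≤ 1 →
    ∃ g : G, act g a = a' ∧ ∀ t : ℚ, 0 ≤ t → t < 1 → (t ≤ c ∨ d ≤ t) → act g t = t

/-- Finite increasing sequences of `(δ, 1)` can be moved to each other by elements that are the identity on
`[0, δ]`. -/
def S_hom : Prop :=
  ∀ δ : ℚ, 0 ≤ δ → δ < 1 → ∀ (n : ℕ) (x y : Fin n → ℚ), StrictMono x → StrictMono y →
    (∀ i, δ < x i ∧ x i < 1) → (∀ i, δ < y i ∧ y i < 1) →
    ∃ g : G, (∀ t : ℚ, 0 ≤ t → t ≤ δ → act g t = t) ∧ ∀ i, act g (x i) = y i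

/-! ### C. Weak limits -/

/-- Bounded sequences in reflexive spaces have weak limits along the ultrafilter. -/
def S_wlim : Prop :=
  ∀ (E : Type) [NormedAddCommGroup E] [NormedSpace ℝ E] [CompleteSpace E],
    Function.Surjective (NormedSpace.inclusionInDoubleDual ℝ E) →
    ∀ u : ℕ → E, (∃ C : ℝ, ∀ n, ‖u n‖ ≤ C) → ∃ w : E, WL u w

/-- Weak limits are unique. -/
def S_wuniq : Prop :=
  ∀ (E : Type) [NormedAddCommGroup E] [NormedSpace ℝ E] (u : ℕ → E) (w w' : E), WL u w → WL u w' → w = w'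

/-- Weak limits do not change under norm null perturbations. -/
def S_wnear : Prop :=
  ∀ (E : Type) [NormedAddCommGroup E] [NormedSpace ℝ E] (u u' : ℕ → E) (w : E), WL u w →
    Tendsto (fun n => ‖u n - u' n‖) (↑(Filter.hyperfilter ℕ) : Filter ℕ) (𝓝 0) → WL u' w

/-- Affine isometries are weakly continuous. -/
def S_wmap : Prop :=
  ∀ (E : Type) [NormedAddCommGroup E] [NormedSpace ℝ E] (T : E ≃ᵃⁱ[ℝ] E) (u : ℕ → E) (w : E), WL u w →
    WL (fun n => T (u n)) (T w)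

/-- Affine isometries preserve convex combinations. -/
def S_amap : Prop :=
  ∀ (E : Type) [NormedAddCommGroup E] [NormedSpace ℝ E] (T : E ≃ᵃⁱ[ℝ] E) (s : Finset ℕ) (l : ℕ → ℝ) (u : ℕ → E),
    ∑ i ∈ s, l i = 1 → T (∑ i ∈ s, l i • u i) = ∑ i ∈ s, l i • T (u i)

/-- Mazur's lemma. -/
def S_mazur : Prop :=
  ∀ (E : Type) [NormedAddCommGroup E] [NormedSpace ℝ E] (u : ℕ → E) (w : E), WL u w →
    ∀ ε : ℝ, 0 < ε → ∃ (s : Finset ℕ) (l : ℕ → ℝ), (∀ i ∈ s, 0 ≤ l i) ∧ ∑ i ∈ s, l i = 1 ∧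
      ‖∑ i ∈ s, l i • u i - w‖ < ε

/-! ### D. Affine isometric actions -/

/-- Orbits of the stabiliser of `0` are bounded. -/
def S_bdd : Prop :=
  ∀ (E : Type) [NormedAddCommGroup E] [NormedSpace ℝ E] (ρ : G →* (E ≃ᵃⁱ[ℝ] E)),
    (∀ v : E, Continuous (fun g : G => ρ g v)) →
    ∀ v : E, ∃ C : ℝ, ∀ g : G, act g 0 = 0 → ‖ρ g v - v‖ ≤ C

/-- Vectors fixed by the elements that are the identity near `0` are fixed by the stabiliser of `0`. -/
def S_dense : Prop :=
  ∀ (E : Type) [NormedAddCommGroup E] [NormedSpace ℝ E] (ρ : G →* (E ≃ᵃⁱ[ℝ] E)),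
    (∀ v : E, Continuous (fun g : G => ρ g v)) →
    ∀ w : E, (∀ g : G, (∃ δ : ℚ, 0 < δ ∧ δ < 1 ∧ ∀ t : ℚ, 0 ≤ t → t ≤ δ → act g t = t) → ρ g w = w) →
      ∀ g : G, act g 0 = 0 → ρ g w = w

/-- The stabiliser of `0` has a fixed vector. -/
def S_fixV : Prop :=
  ∀ (E : Type) [NormedAddCommGroup E] [NormedSpace ℝ E] [CompleteSpace E],
    Function.Surjective (NormedSpace.inclusionInDoubleDual ℝ E) →
    ∀ ρ : G →* (E ≃ᵃⁱ[ℝ] E), (∀ v : E, Continuous (fun g : G => ρ g v)) →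
    ∃ w : E, ∀ g : G, act g 0 = 0 → ρ g w = w

/-- The group has a fixed vector. -/
def S_fin : Prop :=
  ∀ (E : Type) [NormedAddCommGroup E] [NormedSpace ℝ E] [CompleteSpace E],
    Function.Surjective (NormedSpace.inclusionInDoubleDual ℝ E) →
    ∀ ρ : G →* (E ≃ᵃⁱ[ℝ] E), (∀ v : E, Continuous (fun g : G => ρ g v)) →
    ∃ e : E, ∀ g : G, ρ g e = e

end

end Pool.Agent.Y938.AQ
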